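import Pool.Agent.SLC.Final9

/-!
The Goussarov-Habiro conjecture for string links in the degrees d <= 9.
-/

set_option autoImplicit false

namespace Pool.Agent.Results.MP_b75e71_gt.DegreeNine

open SLC

/-- For `1 ≤ d ≤ 9` two `m`-strand string links are `C_d`-equivalent if and only if they agree on all finite type
invariants of degree `< d` with values in abelian groups. -/
theorem result (m d : ℕ) (hd : 1 ≤ d) (hd9 : d ≤ 9) (x y : Tangle) (hx : IsStringLink m x) (hy : IsStringLink m y) :
    CEquiv m d x y ↔ ∀ (A : Type) [AddCommGroup A] (v : Tangle → A), FiniteType m d v → v x = v y :=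
  SLC.main_nine m d hd hd9 x y hx hy

end Pool.Agent.Results.MP_b75e71_gt.DegreeNine
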